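import Pool.Agent.Helper34.PG.Rat

/-!
# The generating function of fixed polyominoes is not rational

`Kl.t n` is the number of fixed `n`-ominoes (classes of connected `n`-sets of cells of the square
lattice modulo translations), `Kl.t 0 = 0`.

Proof. Two polyominoes `A`, `B` with `n` cells can be joined by one cell, `B` to the right of `A`, for
each vertical offset for which a given cell of `B` is in a row of `A`; the union has `2 n + 1` cells and
determines `A`, `B` and the offset, because the joining cell is the only cell whose removal leaves two
parts with `n` cells. The mean number of rows is at least `√n`, so `t (2 n + 1) ≥ √n t(n)²`, and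
iterating this against `t n ≤ lam ^ n` gives `√(2 n) t n ≤ lam ^ (n + 1)`. So
`(1 - lam x) T x → 0` as `x` increases to `1 / lam`: `T` has no pole there. By the theorem of Vivanti
and Pringsheim `T` is not analytic there. The argument applies to all nonnegative coefficients `u n`
with the same growth rate and `u n = o(√n t n)` (see `Pool.Agent.Helper34.PG.Rat`), in particular to
the sections.
-/

set_option autoImplicit false

namespace Pool.Agent.Results.MP_66fa61_co.NotRational

open Filter Topology Pool.Agent.N789

/-- The power series `∑ u n z ^ n` is rational over `K`: `Q ∑ u n z ^ n = P` for polynomials `P` and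
`Q ≠ 0` with coefficients in `K`. -/
def Rational (K : Type) [Field K] (u : ℕ → K) : Prop :=
  ∃ P Q : Polynomial K, Q ≠ 0 ∧ (Q : PowerSeries K) * PowerSeries.mk u = P

/-- **Theorem (Q1: no).** The generating function `T = ∑ t n z ^ n` of the fixed polyominoes is not
rational over `ℚ`. The numbers of fixed polyominoes along an arithmetic progression do not have a
rational generating function either, even over `ℂ`. -/
theorem result :
    ¬ Rational ℚ (fun n => (Kl.t n : ℚ)) ∧
    ∀ m r : ℕ, 1 ≤ m → ¬ Rational ℂ (fun n => (Kl.t (m * n + r) : ℂ)) := by
  refine ⟨?_, fun m r hm => Helper34.PG.section_not_rat hm r⟩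
  rintro ⟨P, Q, hQ, h⟩
  apply Helper34.PG.section_not_rat (m := 1) le_rfl 0
  refine ⟨P.map (algebraMap ℚ ℂ), Q.map (algebraMap ℚ ℂ),
    (Polynomial.map_ne_zero_iff (algebraMap ℚ ℂ).injective).2 hQ, ?_⟩
  have h1 := congrArg (PowerSeries.map (algebraMap ℚ ℂ)) h
  rw [map_mul] at h1
  have e : PowerSeries.map (algebraMap ℚ ℂ) (PowerSeries.mk fun n => (Kl.t n : ℚ)) =
      PowerSeries.mk (fun n => (Kl.t (1 * n + 0) : ℂ)) := by
    ext n
    simp
  rw [e, ← Polynomial.polynomial_map_coe, ← Polynomial.polynomial_map_coe] at h1
  exact h1

end Pool.Agent.Results.MP_66fa61_co.NotRational
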